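import Mathlib
import Pool.Agent.H46.Faith.Split

set_option autoImplicit false

/-! Calculus of joins: edge sets with prescribed boundary over F_2, weights, components. -/

namespace Pool.Agent.H98.Faith

open Pool.Agent.H46.Faith

set_option linter.unusedSectionVars false

variable {V E : Type} [Fintype V] [DecidableEq V] [Fintype E] [DecidableEq E]

/-- boundary of an edge set -/
def bdy (s t : E → V) (D : Finset E) : V → ZMod 2 := ∑ e ∈ D, bd s t e

/-- point mass -/
def pt (v : V) : V → ZMod 2 := Pi.single v 1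

/-- weight of an edge set -/
def wt (g : E → ℤ) (D : Finset E) : ℤ := ∑ e ∈ D, g e

lemma dbl (x : V → ZMod 2) : x + x = 0 := by
  funext v
  exact CharTwo.add_self_eq_zero _

lemma bd_eq (s t : E → V) (e : E) : bd s t e = pt (s e) + pt (t e) := rfl

lemma wt_sd (g : E → ℤ) (A B : Finset E) :
    wt g (symmDiff A B) = wt g A + wt g B - 2 * wt g (A ∩ B) := by
  unfold wt
  have h1 := Finset.sum_inter_add_sum_sdiff A B g
  have h2 := Finset.sum_inter_add_sum_sdiff B A g
  have h3 : symmDiff A B = (A \ B) ∪ (B \ A) := rfl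
  rw [h3, Finset.sum_union disjoint_sdiff_sdiff]
  rw [Finset.inter_comm B A] at h2
  linarith

lemma bdy_sd (s t : E → V) (A B : Finset E) :
    bdy s t (symmDiff A B) = bdy s t A + bdy s t B := by
  unfold bdy
  have h1 := Finset.sum_inter_add_sum_sdiff A B (bd s t)
  have h2 := Finset.sum_inter_add_sum_sdiff B A (bd s t)
  have h3 : symmDiff A B = (A \ B) ∪ (B \ A) := rfl
  rw [h3, Finset.sum_union disjoint_sdiff_sdiff]
  rw [Finset.inter_comm B A] at h2
  rw [← h1, ← h2]
  linear_combination - dbl (∑ e ∈ A ∩ B, bd s t e)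

lemma bdy_empty (s t : E → V) : bdy s t ∅ = 0 := by simp [bdy]

lemma bdy_singleton (s t : E → V) (e : E) : bdy s t {e} = bd s t e := by simp [bdy]

lemma wt_empty (g : E → ℤ) : wt g ∅ = 0 := by simp [wt]

lemma wt_singleton (g : E → ℤ) (e : E) : wt g {e} = g e := by simp [wt]

lemma wt_eq_zero {g : E → ℤ} {Z : Finset E} (h : ∀ e ∈ Z, g e = 0) : wt g Z = 0 :=
  Finset.sum_eq_zero h

lemma wt_null (g : E → ℤ) (A Z : Finset E) (h : ∀ e ∈ Z, g e = 0) :
    wt g (symmDiff A Z) = wt g A := by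
  rw [wt_sd, wt_eq_zero h, wt_eq_zero (fun e he => h e (Finset.mem_inter.1 he).2)]
  ring

lemma wt_disj (g : E → ℤ) {A B : Finset E} (h : Disjoint A B) :
    wt g (symmDiff A B) = wt g A + wt g B := by
  rw [wt_sd, Finset.disjoint_iff_inter_eq_empty.1 h, wt_empty]
  ring

lemma wt_sub (g : E → ℤ) {J A : Finset E} (h : A ⊆ J) :
    wt g (symmDiff J A) = wt g J - wt g A := by
  rw [wt_sd, Finset.inter_eq_right.2 h]
  ring

lemma sub_sd {J A : Finset E} (h : A ⊆ J) : symmDiff J A ⊆ J := by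
  intro e he
  rw [Finset.mem_symmDiff] at he
  rcases he with h1 | h1
  · exact h1.1
  · exact h h1.1

/-- The component of `a` in `D`. -/
noncomputable def comp (s t : E → V) (D : Finset E) (a : V) : Finset V := by
  classical
  exact Finset.univ.filter (fun v => ∃ Q ⊆ D, bdy s t Q = pt a + pt v)

lemma mem_comp {s t : E → V} {D : Finset E} {a v : V} :
    v ∈ comp s t D a ↔ ∃ Q ⊆ D, bdy s t Q = pt a + pt v := by
  classical
  simp [comp]

lemma self_mem_comp (s t : E → V) (D : Finset E) (a : V) : a ∈ comp s t D a := by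
  rw [mem_comp]
  exact ⟨∅, Finset.empty_subset _, by rw [bdy_empty, dbl]⟩

lemma comp_edge {s t : E → V} {D : Finset E} {a : V} {e : E} (he : e ∈ D) :
    s e ∈ comp s t D a ↔ t e ∈ comp s t D a := by
  have key : ∀ x y : V, bd s t e = pt x + pt y → x ∈ comp s t D a → y ∈ comp s t D a := by
    intro x y hxy hx
    rw [mem_comp] at hx ⊢
    obtain ⟨Q, hQ, hb⟩ := hx
    refine ⟨symmDiff Q {e}, ?_, ?_⟩
    · intro e' he'
      rw [Finset.mem_symmDiff, Finset.mem_singleton] at he'
      rcases he' with h | h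
      · exact hQ h.1
      · rw [h.1]; exact he
    · rw [bdy_sd, bdy_singleton, hb, hxy]
      linear_combination dbl (pt x)
  constructor
  · exact key _ _ (bd_eq s t e)
  · exact key _ _ (by rw [bd_eq, add_comm])

lemma pt_self (a : V) : pt a a = 1 := by simp [pt]

lemma pt_ne {a x : V} (h : x ≠ a) : pt a x = 0 := by simp [pt, h]

lemma bdy_apply_zero {s t : E → V} {Q : Finset E} {x : V} (h : ∀ e ∈ Q, s e ≠ x ∧ t e ≠ x) :
    bdy s t Q x = 0 := by
  unfold bdy
  rw [Finset.sum_apply]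
  refine Finset.sum_eq_zero (fun e he => ?_)
  rw [bd_eq, Pi.add_apply, pt_ne (h e he).1.symm, pt_ne (h e he).2.symm, add_zero]

lemma notMem_comp {s t : E → V} {D : Finset E} {a x : V} (hx : x ≠ a)
    (h : ∀ e ∈ D, s e ≠ x ∧ t e ≠ x) : x ∉ comp s t D a := by
  rw [mem_comp]
  rintro ⟨Q, hQ, hb⟩
  have h1 := congrFun hb x
  rw [bdy_apply_zero (fun e he => h e (hQ he)), Pi.add_apply, pt_ne hx, pt_self, zero_add] at h1
  exact absurd h1 (by decide)

lemma cf_pt (K : Finset V) (a : V) : cf K (pt a) = if a ∈ K then 1 else 0 := by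
  rw [cf_apply]
  simp [pt, Pi.single_apply]

lemma cf_bdy (s t : E → V) (K : Finset V) (D : Finset E) :
    cf K (bdy s t D) = ((D ∩ dl s t K).card : ZMod 2) := by
  unfold bdy
  rw [map_sum]
  have h1 : D ∩ dl s t K = D.filter (fun e => ¬ (s e ∈ K ↔ t e ∈ K)) := by
    ext e
    rw [Finset.mem_inter, mem_dl, Finset.mem_filter]
  rw [h1, Finset.card_filter]
  push_cast
  refine Finset.sum_congr rfl (fun e _ => ?_)
  rw [cf_bd]

lemma ends {s t : E → V} {X : Finset V} {e : E} (he : e ∈ dl s t X) :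
    ∃ u v, u ∈ X ∧ v ∉ X ∧ bd s t e = pt u + pt v ∧
      ((s e = u ∧ t e = v) ∨ (s e = v ∧ t e = u)) := by
  rw [mem_dl] at he
  by_cases h1 : s e ∈ X
  · have h2 : t e ∉ X := fun h => he ⟨fun _ => h, fun _ => h1⟩
    exact ⟨s e, t e, h1, h2, bd_eq s t e, Or.inl ⟨rfl, rfl⟩⟩
  · have h2 : t e ∈ X := by
      by_contra h
      exact he ⟨fun h' => absurd h' h1, fun h' => absurd h' h⟩
    exact ⟨t e, s e, h2, h1, by rw [bd_eq, add_comm], Or.inr ⟨rfl, rfl⟩⟩

lemma card_even_of_bdy {s t : E → V} {S : Finset E} (hS : bdy s t S = 0) (K : Finset V) :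
    Even (S ∩ dl s t K).card := by
  rw [← ZMod.natCast_eq_zero_iff_even, ← cf_bdy, hS, map_zero]

/-- Conservative and even weights. -/
structure Cons (s t : E → V) (l : E → ℤ) : Prop where
  nonneg : ∀ S, bdy s t S = 0 → 0 ≤ wt l S
  even : ∀ S, bdy s t S = 0 → Even (wt l S)

/-- edges of weight zero -/
def E0 (l : E → ℤ) : Finset E := Finset.univ.filter (fun e => l e = 0)

lemma mem_E0 {l : E → ℤ} {e : E} : e ∈ E0 l ↔ l e = 0 := by simp [E0]

/-- absolute weights -/
def al (l : E → ℤ) : E → ℤ := fun e => |l e|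

/-- `J` has minimal weight, and then minimal absolute weight, among the joins. -/
def IsMin (s t : E → V) (l : E → ℤ) (J : Finset E) : Prop :=
  ∀ D a b, bdy s t D = pt a + pt b →
    wt l J ≤ wt l D ∧ (wt l D = wt l J → wt (al l) J ≤ wt (al l) D)

lemma exists_min (s t : E → V) (l : E → ℤ) (e : E) (he : l e < 0) :
    ∃ J a b, bdy s t J = pt a + pt b ∧ IsMin s t l J ∧ wt l J < 0 := by
  classical
  let F : Finset (Finset E) := Finset.univ.filter (fun D => ∃ a b, bdy s t D = pt a + pt b)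
  have hF : ({e} : Finset E) ∈ F :=
    Finset.mem_filter.2 ⟨Finset.mem_univ _, s e, t e, by rw [bdy_singleton, bd_eq]⟩
  obtain ⟨J, hJ, hmin⟩ := Finset.exists_min_image F (fun D => toLex (wt l D, wt (al l) D)) ⟨_, hF⟩
  obtain ⟨a, b, hab⟩ := (Finset.mem_filter.1 hJ).2
  have hm : ∀ D ∈ F, wt l J < wt l D ∨ wt l J = wt l D ∧ wt (al l) J ≤ wt (al l) D := by
    intro D hD
    have := hmin D hD
    rw [Prod.Lex.toLex_le_toLex] at this
    exact this
  refine ⟨J, a, b, hab, ?_, ?_⟩
  · intro D a' b' hD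
    have h1 := hm D (Finset.mem_filter.2 ⟨Finset.mem_univ _, a', b', hD⟩)
    constructor
    · rcases h1 with h | h
      · exact h.le
      · exact h.1.le
    · intro h2
      rcases h1 with h | h
      · omega
      · exact h.2
  · have h1 := hm _ hF
    rw [wt_singleton] at h1
    rcases h1 with h | h <;> omega

end Pool.Agent.H98.Faith
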