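import Mathlib
import Pool.Agent.H98.Faith.Joins

set_option autoImplicit false

/-! The peeling step for conservative weights. -/

namespace Pool.Agent.H98.Faith

open Pool.Agent.H46.Faith

set_option linter.unusedSectionVars false

variable {V E : Type} [Fintype V] [DecidableEq V] [Fintype E] [DecidableEq E]

lemma al_nonneg (l : E → ℤ) (e : E) : 0 ≤ al l e := abs_nonneg _

lemma wt_nonneg {g : E → ℤ} {D : Finset E} (h : ∀ e ∈ D, 0 ≤ g e) : 0 ≤ wt g D :=
  Finset.sum_nonneg h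

lemma zero_conn {s t : E → V} {l : E → ℤ} {b u u' : V} (hu : u ∈ comp s t (E0 l) b)
    (hu' : u' ∈ comp s t (E0 l) b) :
    ∃ Z, (∀ e ∈ Z, l e = 0) ∧ bdy s t Z = pt u + pt u' := by
  rw [mem_comp] at hu hu'
  obtain ⟨Q, hQ, hb⟩ := hu
  obtain ⟨Q', hQ', hb'⟩ := hu'
  refine ⟨symmDiff Q Q', ?_, ?_⟩
  · intro e he
    rw [Finset.mem_symmDiff] at he
    rcases he with h | h
    · exact mem_E0.1 (hQ h.1)
    · exact mem_E0.1 (hQ' h.1)
  · rw [bdy_sd, hb, hb']
    linear_combination dbl (pt b)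

/-- The data of the peeling step. -/
structure Data (s t : E → V) (l : E → ℤ) (X : Finset V) (J : Finset E) (f : E) (a u v : V) :
    Prop where
  cons : Cons s t l
  hX : ∀ x ∈ X, ∀ y ∈ X, ∃ Z, (∀ e ∈ Z, l e = 0) ∧ bdy s t Z = pt x + pt y
  hX0 : ∀ e, l e = 0 → (s e ∈ X ↔ t e ∈ X)
  ha : a ∉ X
  hu : u ∈ X
  hv : v ∉ X
  hJ : bdy s t J = pt a + pt u
  hmin : IsMin s t l J
  hneg : wt l J < 0
  hf : f ∈ J
  hfX : f ∈ dl s t X
  hfe : bd s t f = pt u + pt v
  hfo : (s f = u ∧ t f = v) ∨ (s f = v ∧ t f = u)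
  hout : ∀ e ∈ J, e ≠ f → s e ∉ X ∧ t e ∉ X
  hfneg : l f < 0
  hpos : ∀ e ∈ dl s t X, e ≠ f → 0 < l e

lemma exists_data (s t : E → V) (l : E → ℤ) (hc : Cons s t l) (e0 : E) (he0 : l e0 < 0) :
    ∃ X J f a u v, Data s t l X J f a u v := by
  classical
  obtain ⟨J, a, b, hJ, hmin, hneg⟩ := exists_min s t l e0 he0
  set X : Finset V := comp s t (E0 l) b with hXdef
  have hX : ∀ x ∈ X, ∀ y ∈ X, ∃ Z, (∀ e ∈ Z, l e = 0) ∧ bdy s t Z = pt x + pt y :=
    fun x hx y hy => zero_conn hx hy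
  have hX0 : ∀ e, l e = 0 → (s e ∈ X ↔ t e ∈ X) := fun e he => comp_edge (mem_E0.2 he)
  have hbX : b ∈ X := self_mem_comp s t _ b
  have ha : a ∉ X := by
    intro h
    obtain ⟨Z, hZ, hb⟩ := hX a h b hbX
    have h1 : bdy s t (symmDiff J Z) = 0 := by
      rw [bdy_sd, hJ, hb]
      linear_combination dbl (pt a) + dbl (pt b)
    have h2 := hc.nonneg _ h1
    rw [wt_null l J Z hZ] at h2
    omega
  have hne : ∀ e ∈ dl s t X, l e ≠ 0 := by
    intro e he h
    rw [mem_dl] at he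
    exact he (hX0 e h)
  have hsign : ∀ e ∈ dl s t X, (e ∉ J → 0 < l e) ∧ (e ∈ J → l e < 0) := by
    intro e he
    obtain ⟨u, v, hu, hv, hbd, _⟩ := ends he
    obtain ⟨Z, hZ, hb⟩ := hX b hbX u hu
    have h1 : bdy s t (symmDiff (symmDiff J {e}) Z) = pt a + pt v := by
      rw [bdy_sd, bdy_sd, bdy_singleton, hJ, hb, hbd]
      linear_combination dbl (pt b) + dbl (pt u)
    have h2 := (hmin _ _ _ h1).1
    rw [wt_null l _ Z hZ] at h2
    have h3 := hne e he
    constructor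
    · intro heJ
      rw [wt_disj l (Finset.disjoint_singleton_right.2 heJ), wt_singleton] at h2
      omega
    · intro heJ
      rw [wt_sub l (Finset.singleton_subset_iff.2 heJ), wt_singleton] at h2
      omega
  set D : Finset E := J.filter (fun e => s e ∉ X ∧ t e ∉ X) with hD
  set K : Finset V := comp s t D a with hK
  have hKX : ∀ x ∈ X, x ∉ K := by
    intro x hx
    refine notMem_comp (fun h => ha (h ▸ hx)) ?_
    intro e he
    have h1 := (Finset.mem_filter.1 he).2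
    exact ⟨fun h => h1.1 (h ▸ hx), fun h => h1.2 (h ▸ hx)⟩
  have haK : a ∈ K := self_mem_comp s t _ a
  have hg : ∃ g ∈ J, g ∈ dl s t K := by
    by_contra hcon
    push Not at hcon
    have h1 : J ∩ dl s t K = ∅ := by
      ext e
      simp only [Finset.mem_inter, Finset.notMem_empty, iff_false, not_and]
      exact hcon e
    have h2 := cf_bdy s t K J
    rw [h1, Finset.card_empty, Nat.cast_zero, hJ, map_add, cf_pt, cf_pt, if_pos haK,
      if_neg (hKX b hbX), add_zero] at h2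
    exact absurd h2 (by decide)
  obtain ⟨g, hgJ, hgK⟩ := hg
  have hgD : g ∉ D := by
    intro h
    rw [mem_dl] at hgK
    exact hgK (comp_edge h)
  obtain ⟨v, u, hvK, huK, hbd, hor⟩ := ends hgK
  have hvX : v ∉ X := fun h => hKX v h hvK
  have huX : u ∈ X := by
    by_contra huX
    apply hgD
    refine Finset.mem_filter.2 ⟨hgJ, ?_⟩
    rcases hor with ⟨h1, h2⟩ | ⟨h1, h2⟩
    · rw [h1, h2]; exact ⟨hvX, huX⟩
    · rw [h1, h2]; exact ⟨huX, hvX⟩
  obtain ⟨Q, hQ, hQb⟩ := mem_comp.1 hvK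
  have hgQ : g ∉ Q := fun h => hgD (hQ h)
  set J1 : Finset E := symmDiff Q {g} with hJ1
  have hJ1m : ∀ e, e ∈ J1 ↔ e ∈ Q ∨ e = g := by
    intro e
    rw [hJ1, Finset.mem_symmDiff, Finset.mem_singleton]
    constructor
    · rintro (h | h)
      · exact Or.inl h.1
      · exact Or.inr h.1
    · rintro (h | h)
      · exact Or.inl ⟨h, fun h' => hgQ (h' ▸ h)⟩
      · exact Or.inr ⟨h, h ▸ hgQ⟩
  have hJ1J : J1 ⊆ J := by
    intro e he
    rcases (hJ1m e).1 he with h | h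
    · exact (Finset.mem_filter.1 (hQ h)).1
    · exact h ▸ hgJ
  have hJ1b : bdy s t J1 = pt a + pt u := by
    rw [hJ1, bdy_sd, bdy_singleton, hQb, hbd]
    linear_combination dbl (pt v)
  obtain ⟨Z, hZ, hZb⟩ := hX u huX b hbX
  have hrest : bdy s t (symmDiff (symmDiff J J1) Z) = 0 := by
    rw [bdy_sd, bdy_sd, hJ, hJ1b, hZb]
    linear_combination dbl (pt a) + dbl (pt b) + dbl (pt u)
  have h1 := hc.nonneg _ hrest
  rw [wt_null l _ Z hZ, wt_sub l hJ1J] at h1
  have h2 := hmin J1 a u hJ1b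
  have hweq : wt l J1 = wt l J := le_antisymm (by omega) h2.1
  have h3 := h2.2 hweq
  have h4 : wt (al l) (symmDiff J J1) = wt (al l) J - wt (al l) J1 := wt_sub (al l) hJ1J
  have h5 : 0 ≤ wt (al l) (symmDiff J J1) := wt_nonneg (fun e _ => al_nonneg l e)
  have h6 : wt (al l) (symmDiff J J1) = 0 := by omega
  have h7 : ∀ e ∈ symmDiff J J1, l e = 0 := by
    intro e he
    have := (Finset.sum_eq_zero_iff_of_nonneg (fun e _ => al_nonneg l e)).1 h6 e he
    exact abs_eq_zero.1 this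
  have hgX : g ∈ dl s t X := by
    rw [mem_dl]
    rcases hor with ⟨h1, h2⟩ | ⟨h1, h2⟩
    · rw [h1, h2]; tauto
    · rw [h1, h2]; tauto
  refine ⟨X, J1, g, a, u, v, hc, hX, hX0, ha, huX, hvX, hJ1b, ?_, by omega,
    (hJ1m g).2 (Or.inr rfl), hgX, by rw [hbd, add_comm], ?_, ?_, (hsign g hgX).2 hgJ, ?_⟩
  · intro D' a' b' hD'
    have h8 := hmin D' a' b' hD'
    exact ⟨by omega, fun h => by
      have := h8.2 (by omega)
      omega⟩
  · rcases hor with h | h
    · exact Or.inr h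
    · exact Or.inl h
  · intro e he heg
    rcases (hJ1m e).1 he with h | h
    · exact (Finset.mem_filter.1 (hQ h)).2
    · exact absurd h heg
  · intro e he heg
    by_cases heJ : e ∈ J
    · exfalso
      by_cases heJ1 : e ∈ J1
      · rcases (hJ1m e).1 heJ1 with h | h
        · have h9 := (Finset.mem_filter.1 (hQ h)).2
          rw [mem_dl] at he
          tauto
        · exact heg h
      · exact hne e he (h7 e (Finset.mem_symmDiff.2 (Or.inl ⟨heJ, heJ1⟩)))
    · exact (hsign e he).1 heJ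

lemma contra1 {s t : E → V} {l : E → ℤ} {X : Finset V} {J : Finset E} {f : E} {a u v : V}
    (d : Data s t l X J f a u v) {S : Finset E} (hS : bdy s t S = 0) (hS0 : wt l S = 0)
    {g1 : E} {u1 v1 w : V} (hg1 : g1 ∈ S) (hbd : bd s t g1 = pt u1 + pt v1) (hu1 : u1 ∈ X)
    {Q1 : Finset E} (hQ1 : Q1 ⊆ S) (hg1Q : g1 ∉ Q1) (hQ1b : bdy s t Q1 = pt v1 + pt w)
    {P : Finset E} (hPJ : P ⊆ J) (hfP : f ∈ P) (hPS : Disjoint P S)
    (hPb : bdy s t P = pt w + pt u) : False := by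
  have hPneg : wt l P < 0 := by
    have h1 : bdy s t (symmDiff J P) = pt a + pt w := by
      rw [bdy_sd, d.hJ, hPb]
      linear_combination dbl (pt u)
    have h2 := d.hmin _ _ _ h1
    rw [wt_sub l hPJ, wt_sub (al l) hPJ] at h2
    by_contra hcon
    have h3 : wt l P = 0 := by omega
    have h4 := h2.2 (by omega)
    have h5 : al l f ≤ wt (al l) P :=
      Finset.single_le_sum (f := al l) (fun e _ => al_nonneg l e) hfP
    have h6 : 0 < al l f := abs_pos.2 (by have := d.hfneg; omega)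
    omega
  obtain ⟨Z, hZ, hZb⟩ := d.hX u d.hu u1 hu1
  set S1 : Finset E := symmDiff Q1 {g1} with hS1
  have hS1S : S1 ⊆ S := by
    intro e he
    rw [hS1, Finset.mem_symmDiff, Finset.mem_singleton] at he
    rcases he with h | h
    · exact hQ1 h.1
    · exact h.1 ▸ hg1
  have hS1b : bdy s t S1 = pt w + pt u1 := by
    rw [hS1, bdy_sd, bdy_singleton, hQ1b, hbd]
    linear_combination dbl (pt v1)
  have hS2S : symmDiff S S1 ⊆ S := sub_sd hS1S
  have hS2b : bdy s t (symmDiff S S1) = pt w + pt u1 := by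
    rw [bdy_sd, hS, hS1b, zero_add]
  have hkey : ∀ A : Finset E, A ⊆ S → bdy s t A = pt w + pt u1 → 0 < wt l A := by
    intro A hA hAb
    have h1 : bdy s t (symmDiff (symmDiff P A) Z) = 0 := by
      rw [bdy_sd, bdy_sd, hPb, hAb, hZb]
      linear_combination dbl (pt w) + dbl (pt u) + dbl (pt u1)
    have h2 := d.cons.nonneg _ h1
    rw [wt_null l _ Z hZ, wt_disj l (hPS.mono_right hA)] at h2
    omega
  have h1 := hkey S1 hS1S hS1b
  have h2 := hkey _ hS2S hS2b
  rw [wt_sub l hS1S] at h2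
  omega

lemma contra2 {s t : E → V} {l : E → ℤ} {X : Finset V} {J : Finset E} {f : E} {a u v : V}
    (d : Data s t l X J f a u v) {S : Finset E} (hS : bdy s t S = 0) (hS0 : wt l S = 0)
    {g1 : E} {u1 v1 : V} (hg1 : g1 ∈ S) (hg1X : g1 ∈ dl s t X) (hg1f : g1 ≠ f)
    (hbd : bd s t g1 = pt u1 + pt v1) (hu1 : u1 ∈ X)
    {P : Finset E} (hPJ : P ⊆ J) (hPS : Disjoint P S)
    (hPb : bdy s t P = pt a + pt u) : False := by
  have h1 : wt l P ≤ wt l J := by
    have h2 : bdy s t (symmDiff J P) = 0 := by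
      rw [bdy_sd, d.hJ, hPb, dbl]
    have h3 := d.cons.nonneg _ h2
    rw [wt_sub l hPJ] at h3
    omega
  obtain ⟨Z, hZ, hZb⟩ := d.hX u d.hu u1 hu1
  have h4 : bdy s t (symmDiff (symmDiff P (symmDiff S {g1})) Z) = pt a + pt v1 := by
    rw [bdy_sd, bdy_sd, bdy_sd, bdy_singleton, hPb, hZb, hS, hbd]
    linear_combination dbl (pt u) + dbl (pt u1)
  have h5 := (d.hmin _ _ _ h4).1
  rw [wt_null l _ Z hZ, wt_disj l (hPS.mono_right (sub_sd (Finset.singleton_subset_iff.2 hg1))),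
    wt_sub l (Finset.singleton_subset_iff.2 hg1), wt_singleton] at h5
  have h6 := d.hpos g1 hg1X hg1f
  omega

end Pool.Agent.H98.Faith
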