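import Mathlib
import Pool.Agent.H98.Faith.Step

set_option autoImplicit false

/-! The peeling step for conservative weights, continued. -/

namespace Pool.Agent.H98.Faith

open Pool.Agent.H46.Faith

set_option linter.unusedSectionVars false

variable {V E : Type} [Fintype V] [DecidableEq V] [Fintype E] [DecidableEq E]

/-- Even subgraphs with two edges in the cut and avoiding `f` have weight at least two. -/
lemma two_le {s t : E → V} {l : E → ℤ} {X : Finset V} {J : Finset E} {f : E} {a u v : V}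
    (d : Data s t l X J f a u v) : ∀ (n : ℕ) (S : Finset E), S.card = n → bdy s t S = 0 →
      (S ∩ dl s t X).card = 2 → f ∉ S → 2 ≤ wt l S := by
  intro n
  induction n using Nat.strong_induction_on with
  | _ n ih =>
  intro S hn hS hS2 hfS
  by_contra hlt
  have hS0 : wt l S = 0 := by
    have h1 := d.cons.nonneg _ hS
    obtain ⟨k, hk⟩ := d.cons.even _ hS
    omega
  obtain ⟨g1, g2, hg12, hgs⟩ := Finset.card_eq_two.1 hS2
  have hm : ∀ e, e ∈ S → e ∈ dl s t X → e = g1 ∨ e = g2 := by
    intro e he he'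
    have : e ∈ S ∩ dl s t X := Finset.mem_inter.2 ⟨he, he'⟩
    rw [hgs] at this
    simpa using this
  have hg1 : g1 ∈ S ∩ dl s t X := by rw [hgs]; simp
  have hg2 : g2 ∈ S ∩ dl s t X := by rw [hgs]; simp
  obtain ⟨hg1S, hg1X⟩ := Finset.mem_inter.1 hg1
  obtain ⟨hg2S, hg2X⟩ := Finset.mem_inter.1 hg2
  obtain ⟨u1, v1, hu1, hv1, hb1, ho1⟩ := ends hg1X
  obtain ⟨u2, v2, hu2, hv2, hb2, ho2⟩ := ends hg2X
  set DS : Finset E := S.filter (fun e => s e ∉ X ∧ t e ∉ X) with hDS
  have hDSm : ∀ e, e ∈ DS ↔ e ∈ S ∧ s e ∉ X ∧ t e ∉ X := fun e => Finset.mem_filter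
  set K : Finset V := comp s t DS v1 with hK
  have hKX : ∀ x ∈ X, x ∉ K := by
    intro x hx
    refine notMem_comp (fun h => hv1 (h ▸ hx)) ?_
    intro e he
    have h1 := ((hDSm e).1 he).2
    exact ⟨fun h => h1.1 (h ▸ hx), fun h => h1.2 (h ▸ hx)⟩
  have hv1K : v1 ∈ K := self_mem_comp s t _ v1
  -- edges of S crossing K
  have hcr : ∀ e ∈ S, e ∈ dl s t K → e ∈ dl s t X := by
    intro e heS heK
    have hnD : e ∉ DS := by
      intro h
      rw [mem_dl] at heK
      exact heK (comp_edge h)
    rw [mem_dl] at heK ⊢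
    intro hcon
    apply hnD
    rw [hDSm]
    refine ⟨heS, ?_, ?_⟩
    · intro h1
      have h2 := hcon.1 h1
      exact heK ⟨fun h => absurd h (hKX _ h1), fun h => absurd h (hKX _ h2)⟩
    · intro h2
      have h1 := hcon.2 h2
      exact heK ⟨fun h => absurd h (hKX _ h1), fun h => absurd h (hKX _ h2)⟩
  have hg1K : g1 ∈ dl s t K := by
    rw [mem_dl]
    rcases ho1 with ⟨h1, h2⟩ | ⟨h1, h2⟩
    · rw [h1, h2]
      have := hKX u1 hu1
      tauto
    · rw [h1, h2]
      have := hKX u1 hu1
      tauto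
  have hg2K : g2 ∈ dl s t K := by
    by_contra hcon
    have h1 : S ∩ dl s t K = {g1} := by
      ext e
      simp only [Finset.mem_inter, Finset.mem_singleton]
      constructor
      · rintro ⟨h1, h2⟩
        rcases hm e h1 (hcr e h1 h2) with h | h
        · exact h
        · exact absurd (h ▸ h2) hcon
      · intro h; rw [h]; exact ⟨hg1S, hg1K⟩
    have h2 := card_even_of_bdy hS K
    rw [h1, Finset.card_singleton] at h2
    exact absurd h2 (by decide)
  have hv2K : v2 ∈ K := by
    by_contra hcon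
    rw [mem_dl] at hg2K
    have := hKX u2 hu2
    rcases ho2 with ⟨h1, h2⟩ | ⟨h1, h2⟩
    · rw [h1, h2] at hg2K; tauto
    · rw [h1, h2] at hg2K; tauto
  -- the part of S far from K
  set R : Finset E := DS.filter (fun e => s e ∉ K) with hR
  have hRm : ∀ e, e ∈ R ↔ e ∈ DS ∧ s e ∉ K := fun e => Finset.mem_filter
  have hRS : R ⊆ S := fun e he => ((hDSm e).1 ((hRm e).1 he).1).1
  have hRb : bdy s t R = 0 := by
    funext x
    rw [Pi.zero_apply]
    by_cases hx : x ∈ X ∨ x ∈ K
    · refine bdy_apply_zero (fun e he => ?_)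
      obtain ⟨h1, h2⟩ := (hRm e).1 he
      obtain ⟨h3, h4, h5⟩ := (hDSm e).1 h1
      have h6 : t e ∉ K := fun h => h2 ((comp_edge h1).2 h)
      constructor
      · rintro rfl; rcases hx with h | h
        · exact h4 h
        · exact h2 h
      · rintro rfl; rcases hx with h | h
        · exact h5 h
        · exact h6 h
    · push Not at hx
      have h1 : bdy s t (symmDiff S R) x = 0 := by
        refine bdy_apply_zero (fun e he => ?_)
        have he' : e ∈ S ∧ e ∉ R := by
          rw [Finset.mem_symmDiff] at he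
          rcases he with h | h
          · exact h
          · exact absurd (hRS h.1) h.2
        obtain ⟨heS, heR⟩ := he'
        by_cases heD : e ∈ DS
        · have h2 : s e ∈ K := by
            by_contra h
            exact heR ((hRm e).2 ⟨heD, h⟩)
          have h3 : t e ∈ K := (comp_edge heD).1 h2
          exact ⟨fun h => hx.2 (h ▸ h2), fun h => hx.2 (h ▸ h3)⟩
        · have hgen : x ∉ X → x ∉ K → (s e = x ∨ t e = x) → False := by
            intro hxX hxK hor
            have heX : e ∈ dl s t X := by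
              rw [mem_dl]
              intro hcon
              apply heD
              rw [hDSm]
              rcases hor with h | h
              · have h2 : s e ∉ X := by rw [h]; exact hxX
                exact ⟨heS, h2, fun h' => h2 (hcon.2 h')⟩
              · have h2 : t e ∉ X := by rw [h]; exact hxX
                exact ⟨heS, fun h' => h2 (hcon.1 h'), h2⟩
            have hgo : ∀ (g : E) (u' v' : V), u' ∈ X → v' ∈ K →
                ((s g = u' ∧ t g = v') ∨ (s g = v' ∧ t g = u')) → e = g → False := by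
              intro g u' v' hu' hv' ho heg
              rw [heg] at hor
              rcases ho with ⟨h1, h2⟩ | ⟨h1, h2⟩
              · rw [h1, h2] at hor
                rcases hor with h | h
                · exact hxX (h ▸ hu')
                · exact hxK (h ▸ hv')
              · rw [h1, h2] at hor
                rcases hor with h | h
                · exact hxK (h ▸ hv')
                · exact hxX (h ▸ hu')
            rcases hm e heS heX with h | h
            · exact hgo g1 u1 v1 hu1 hv1K ho1 h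
            · exact hgo g2 u2 v2 hu2 hv2K ho2 h
          exact ⟨fun h => hgen hx.1 hx.2 (Or.inl h), fun h => hgen hx.1 hx.2 (Or.inr h)⟩
      have h2 := congrFun (bdy_sd s t S R) x
      rw [h1, Pi.add_apply, hS, Pi.zero_apply, zero_add] at h2
      exact h2.symm
  have hRempty : R = ∅ := by
    by_contra hne
    have hne' : R.Nonempty := Finset.nonempty_iff_ne_empty.2 hne
    have h1 : bdy s t (symmDiff S R) = 0 := by rw [bdy_sd, hS, hRb, add_zero]
    have h2 := d.cons.nonneg _ hRb
    have h3 := d.cons.nonneg _ h1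
    rw [wt_sub l hRS] at h3
    have h4 : (symmDiff S R).card < n := by
      rw [← hn]
      refine Finset.card_lt_card ?_
      refine ⟨sub_sd hRS, fun hcon => ?_⟩
      obtain ⟨e, he⟩ := hne'
      have := hcon (hRS he)
      rw [Finset.mem_symmDiff] at this
      rcases this with h | h
      · exact h.2 he
      · exact h.2 (hRS he)
    have h5 : symmDiff S R ∩ dl s t X = S ∩ dl s t X := by
      ext e
      simp only [Finset.mem_inter, Finset.mem_symmDiff]
      constructor
      · rintro ⟨h | h, h'⟩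
        · exact ⟨h.1, h'⟩
        · exact ⟨hRS h.1, h'⟩
      · rintro ⟨h, h'⟩
        refine ⟨Or.inl ⟨h, ?_⟩, h'⟩
        intro heR
        have h6 := (hDSm e).1 ((hRm e).1 heR).1
        rw [mem_dl] at h'
        tauto
    have h6 := ih _ h4 (symmDiff S R) rfl h1 (by rw [h5]; exact hS2)
      (fun h => hfS (sub_sd hRS h))
    rw [wt_sub l hRS] at h6
    omega
  have hDSK : ∀ e ∈ DS, s e ∈ K ∧ t e ∈ K := by
    intro e he
    have h1 : s e ∈ K := by
      by_contra h
      have : e ∈ R := (hRm e).2 ⟨he, h⟩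
      rw [hRempty] at this
      exact absurd this (Finset.notMem_empty e)
    exact ⟨h1, (comp_edge he).1 h1⟩
  have hg1D : ∀ Q, Q ⊆ DS → g1 ∉ Q := by
    intro Q hQ h
    have := ((hDSm g1).1 (hQ h)).2
    rw [mem_dl] at hg1X
    tauto
  -- final contradiction in the first case
  have hfin : ∀ (P : Finset E) (w : V), w ∈ K → P ⊆ J → f ∈ P → Disjoint P S →
      bdy s t P = pt w + pt u → False := by
    intro P w hw hPJ hfP hPS hPb
    obtain ⟨Q1, hQ1, hQ1b⟩ := mem_comp.1 hw
    exact contra1 d hS hS0 hg1S hb1 hu1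
      (fun e he => ((hDSm e).1 (hQ1 he)).1) (hg1D Q1 hQ1) hQ1b hPJ hfP hPS hPb
  by_cases hvK : v ∈ K
  · refine hfin {f} v hvK (Finset.singleton_subset_iff.2 d.hf) (Finset.mem_singleton_self f)
      (Finset.disjoint_singleton_left.2 hfS) ?_
    rw [bdy_singleton, d.hfe, add_comm]
  set DJ : Finset E := J.filter (fun e => e ≠ f ∧ s e ∉ K ∧ t e ∉ K) with hDJ
  have hDJm : ∀ e, e ∈ DJ ↔ e ∈ J ∧ e ≠ f ∧ s e ∉ K ∧ t e ∉ K := fun e => Finset.mem_filter
  set B : Finset V := comp s t DJ v with hB
  have hBK : ∀ x ∈ K, x ∉ B := by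
    intro x hx
    refine notMem_comp (fun h => hvK (h ▸ hx)) ?_
    intro e he
    have h1 := ((hDJm e).1 he).2.2
    exact ⟨fun h => h1.1 (h ▸ hx), fun h => h1.2 (h ▸ hx)⟩
  have hBX : ∀ x ∈ X, x ∉ B := by
    intro x hx
    refine notMem_comp (fun h => d.hv (h ▸ hx)) ?_
    intro e he
    have h0 := (hDJm e).1 he
    have h1 := d.hout e h0.1 h0.2.1
    exact ⟨fun h => h1.1 (h ▸ hx), fun h => h1.2 (h ▸ hx)⟩
  have hvB : v ∈ B := self_mem_comp s t _ v
  have hDJS : ∀ e ∈ DJ, e ∉ S := by
    intro e he heS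
    have h0 := (hDJm e).1 he
    have h1 := d.hout e h0.1 h0.2.1
    have h2 : e ∈ DS := (hDSm e).2 ⟨heS, h1⟩
    exact h0.2.2.1 (hDSK e h2).1
  by_cases haB : a ∈ B
  · obtain ⟨Q, hQ, hQb⟩ := mem_comp.1 haB
    have hfQ : f ∉ Q := fun h => ((hDJm f).1 (hQ h)).2.1 rfl
    have hPm : ∀ e ∈ symmDiff Q {f}, e ∈ Q ∨ e = f := by
      intro e he
      rw [Finset.mem_symmDiff, Finset.mem_singleton] at he
      rcases he with h | h
      · exact Or.inl h.1
      · exact Or.inr h.1
    refine contra2 d hS hS0 hg1S hg1X (fun h => hfS (h ▸ hg1S)) hb1 hu1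
      (P := symmDiff Q {f}) ?_ ?_ ?_
    · intro e he
      rcases hPm e he with h | h
      · exact ((hDJm e).1 (hQ h)).1
      · exact h ▸ d.hf
    · rw [Finset.disjoint_left]
      intro e he
      rcases hPm e he with h | h
      · exact hDJS e (hQ h)
      · exact h ▸ hfS
    · rw [bdy_sd, bdy_singleton, hQb, d.hfe]
      linear_combination dbl (pt v)
  · -- another edge of J leaves B
    have hfB : f ∈ dl s t B := by
      rw [mem_dl]
      have := hBX u d.hu
      rcases d.hfo with ⟨h1, h2⟩ | ⟨h1, h2⟩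
      · rw [h1, h2]; tauto
      · rw [h1, h2]; tauto
    have hex : ∃ g ∈ J, g ∈ dl s t B ∧ g ≠ f := by
      by_contra hcon
      push Not at hcon
      have h1 : J ∩ dl s t B = {f} := by
        ext e
        simp only [Finset.mem_inter, Finset.mem_singleton]
        constructor
        · rintro ⟨h1, h2⟩; exact hcon e h1 h2
        · intro h; rw [h]; exact ⟨d.hf, hfB⟩
      have h2 := cf_bdy s t B J
      rw [h1, Finset.card_singleton, Nat.cast_one, d.hJ, map_add, cf_pt, cf_pt, if_neg haB,
        if_neg (hBX u d.hu), add_zero] at h2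
      exact absurd h2 (by decide)
    obtain ⟨g, hgJ, hgB, hgf⟩ := hex
    have hgD : g ∉ DJ := by
      intro h
      rw [mem_dl] at hgB
      exact hgB (comp_edge h)
    obtain ⟨b, w, hb, hw, hbd, hor⟩ := ends hgB
    have hbK : b ∉ K := fun h => hBK b h hb
    have hwK : w ∈ K := by
      by_contra hwK
      apply hgD
      rw [hDJm]
      refine ⟨hgJ, hgf, ?_⟩
      rcases hor with ⟨h1, h2⟩ | ⟨h1, h2⟩
      · rw [h1, h2]; exact ⟨hbK, hwK⟩
      · rw [h1, h2]; exact ⟨hwK, hbK⟩
    obtain ⟨Q, hQ, hQb⟩ := mem_comp.1 hb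
    have hgS : g ∉ S := by
      intro hgS
      have h2 : g ∈ DS := (hDSm g).2 ⟨hgS, d.hout g hgJ hgf⟩
      have h3 := hDSK g h2
      rcases hor with ⟨h1, _⟩ | ⟨_, h2'⟩
      · exact hbK (h1 ▸ h3.1)
      · exact hbK (h2' ▸ h3.2)
    have hfQ : f ∉ Q := fun h => ((hDJm f).1 (hQ h)).2.1 rfl
    have hPm : ∀ e ∈ symmDiff (symmDiff Q {g}) {f}, e ∈ Q ∨ e = g ∨ e = f := by
      intro e he
      rw [Finset.mem_symmDiff, Finset.mem_symmDiff, Finset.mem_singleton,
        Finset.mem_singleton] at he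
      rcases he with h | h
      · rcases h.1 with h' | h'
        · exact Or.inl h'.1
        · exact Or.inr (Or.inl h'.1)
      · exact Or.inr (Or.inr h.1)
    refine hfin (symmDiff (symmDiff Q {g}) {f}) w hwK ?_ ?_ ?_ ?_
    · intro e he
      rcases hPm e he with h | h | h
      · exact ((hDJm e).1 (hQ h)).1
      · exact h ▸ hgJ
      · exact h ▸ d.hf
    · rw [Finset.mem_symmDiff]
      refine Or.inr ⟨Finset.mem_singleton_self f, ?_⟩
      rw [Finset.mem_symmDiff, Finset.mem_singleton]
      rintro (h | h)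
      · exact hfQ h.1
      · exact hgf h.1.symm
    · rw [Finset.disjoint_left]
      intro e he
      rcases hPm e he with h | h | h
      · exact hDJS e (hQ h)
      · exact h ▸ hgS
      · exact h ▸ hfS
    · rw [bdy_sd, bdy_sd, bdy_singleton, bdy_singleton, hQb, hbd, d.hfe]
      linear_combination dbl (pt v) + dbl (pt b)

/-- The peeled weights. -/
def peel (l : E → ℤ) (C : Finset E) (f : E) : E → ℤ :=
  fun e => l e - (if e ∈ C then 1 else 0) + (if e = f then 2 else 0)

lemma wt_peel (l : E → ℤ) (C : Finset E) (f : E) (S : Finset E) :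
    wt (peel l C f) S = wt l S - (S ∩ C).card + (if f ∈ S then 2 else 0) := by
  unfold wt peel
  rw [Finset.sum_add_distrib, Finset.sum_sub_distrib]
  congr 1
  · congr 1
    rw [Finset.card_eq_sum_ones, Nat.cast_sum, ← Finset.sum_ite_mem]
    simp
  · rw [Finset.sum_ite_eq' S f (fun _ => (2 : ℤ))]

lemma peel_nonneg {s t : E → V} {l : E → ℤ} {X : Finset V} {J : Finset E} {f : E} {a u v : V}
    (d : Data s t l X J f a u v) : ∀ (n : ℕ) (S : Finset E), (S ∩ dl s t X).card = n →
      bdy s t S = 0 → 0 ≤ wt (peel l (dl s t X) f) S := by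
  intro n
  induction n using Nat.strong_induction_on with
  | _ n ih =>
  intro S hn hS
  have hev := card_even_of_bdy hS X
  rw [hn] at hev
  rcases Nat.eq_zero_or_pos n with h0 | h0
  · rw [wt_peel, hn, h0]
    have := d.cons.nonneg _ hS
    split_ifs <;> push_cast <;> omega
  by_cases h2 : n = 2
  · rw [wt_peel, hn, h2]
    have h3 := d.cons.nonneg _ hS
    split_ifs with hf
    · push_cast; omega
    · have := two_le d _ S rfl hS (by rw [hn, h2]) hf
      push_cast; omega
  have hn4 : 4 ≤ n := by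
    obtain ⟨k, hk⟩ := hev
    omega
  -- split off a piece with two cut edges
  obtain ⟨g1, hg1⟩ : (S ∩ dl s t X).Nonempty := Finset.card_pos.1 (by omega)
  obtain ⟨hg1S, hg1X⟩ := Finset.mem_inter.1 hg1
  obtain ⟨u1, v1, hu1, hv1, hb1, ho1⟩ := ends hg1X
  set DS : Finset E := S.filter (fun e => s e ∉ X ∧ t e ∉ X) with hDS
  have hDSm : ∀ e, e ∈ DS ↔ e ∈ S ∧ s e ∉ X ∧ t e ∉ X := fun e => Finset.mem_filter
  set K : Finset V := comp s t DS v1 with hK
  have hKX : ∀ x ∈ X, x ∉ K := by
    intro x hx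
    refine notMem_comp (fun h => hv1 (h ▸ hx)) ?_
    intro e he
    have h1 := ((hDSm e).1 he).2
    exact ⟨fun h => h1.1 (h ▸ hx), fun h => h1.2 (h ▸ hx)⟩
  have hv1K : v1 ∈ K := self_mem_comp s t _ v1
  have hg1K : g1 ∈ dl s t K := by
    rw [mem_dl]
    have := hKX u1 hu1
    rcases ho1 with ⟨h1, h2⟩ | ⟨h1, h2⟩
    · rw [h1, h2]; tauto
    · rw [h1, h2]; tauto
  have hex : ∃ g ∈ S, g ∈ dl s t K ∧ g ≠ g1 := by
    by_contra hcon
    push Not at hcon
    have h1 : S ∩ dl s t K = {g1} := by
      ext e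
      simp only [Finset.mem_inter, Finset.mem_singleton]
      constructor
      · rintro ⟨h1, h2⟩; exact hcon e h1 h2
      · intro h; rw [h]; exact ⟨hg1S, hg1K⟩
    have h2 := card_even_of_bdy hS K
    rw [h1, Finset.card_singleton] at h2
    exact absurd h2 (by decide)
  obtain ⟨g2, hg2S, hg2K, hg21⟩ := hex
  have hg2D : g2 ∉ DS := by
    intro h
    rw [mem_dl] at hg2K
    exact hg2K (comp_edge h)
  have hg2X : g2 ∈ dl s t X := by
    rw [mem_dl] at hg2K ⊢
    intro hcon
    apply hg2D
    rw [hDSm]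
    refine ⟨hg2S, ?_, ?_⟩
    · intro h1
      have h2 := hcon.1 h1
      exact hg2K ⟨fun h => absurd h (hKX _ h1), fun h => absurd h (hKX _ h2)⟩
    · intro h2
      have h1 := hcon.2 h2
      exact hg2K ⟨fun h => absurd h (hKX _ h1), fun h => absurd h (hKX _ h2)⟩
  obtain ⟨u2, v2, hu2, hv2, hb2, ho2⟩ := ends hg2X
  have hv2K : v2 ∈ K := by
    by_contra hcon
    rw [mem_dl] at hg2K
    have := hKX u2 hu2
    rcases ho2 with ⟨h1, h2⟩ | ⟨h1, h2⟩
    · rw [h1, h2] at hg2K; tauto
    · rw [h1, h2] at hg2K; tauto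
  obtain ⟨Q, hQ, hQb⟩ := mem_comp.1 hv2K
  have hQX : ∀ e ∈ Q, e ∉ dl s t X := by
    intro e he
    have h1 := ((hDSm e).1 (hQ he)).2
    rw [mem_dl]
    tauto
  set A : Finset E := symmDiff (symmDiff Q {g1}) {g2} with hA
  have hAm : ∀ e, e ∈ A ↔ e ∈ Q ∨ e = g1 ∨ e = g2 := by
    intro e
    rw [hA, Finset.mem_symmDiff, Finset.mem_symmDiff, Finset.mem_singleton, Finset.mem_singleton]
    have h1 : e = g1 → e ∉ Q := fun h h' => hQX e h' (by rw [h]; exact hg1X)
    have h2 : e = g2 → e ∉ Q := fun h h' => hQX e h' (by rw [h]; exact hg2X)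
    have h3 : e = g2 → ¬ e = g1 := fun h h' => hg21 (h.symm.trans h')
    constructor
    · rintro (h | h)
      · rcases h.1 with h' | h'
        · exact Or.inl h'.1
        · exact Or.inr (Or.inl h'.1)
      · exact Or.inr (Or.inr h.1)
    · rintro (h | h | h)
      · exact Or.inl ⟨Or.inl ⟨h, fun h' => h1 h' h⟩, fun h' => h2 h' h⟩
      · exact Or.inl ⟨Or.inr ⟨h, h1 h⟩, fun h' => h3 h' h⟩
      · refine Or.inr ⟨h, ?_⟩
        rintro (h' | h')
        · exact h2 h h'.1
        · exact h3 h h'.1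
  have hAS : A ⊆ S := by
    intro e he
    rcases (hAm e).1 he with h | h | h
    · exact ((hDSm e).1 (hQ h)).1
    · exact h ▸ hg1S
    · exact h ▸ hg2S
  have hAb : bdy s t A = pt u1 + pt u2 := by
    rw [hA, bdy_sd, bdy_sd, bdy_singleton, bdy_singleton, hQb, hb1, hb2]
    linear_combination dbl (pt v1) + dbl (pt v2)
  obtain ⟨Z, hZ, hZb⟩ := d.hX u1 hu1 u2 hu2
  have hZX : ∀ e ∈ Z, e ∉ dl s t X := by
    intro e he
    rw [mem_dl, not_not]
    exact d.hX0 e (hZ e he)
  have hZp : ∀ e ∈ Z, peel l (dl s t X) f e = 0 := by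
    intro e he
    unfold peel
    rw [if_neg (hZX e he), if_neg (fun h : e = f => hZX e he (by rw [h]; exact d.hfX)), hZ e he]
    ring
  have hcut : ∀ D : Finset E, symmDiff D Z ∩ dl s t X = D ∩ dl s t X := by
    intro D
    ext e
    simp only [Finset.mem_inter, Finset.mem_symmDiff]
    constructor
    · rintro ⟨h | h, h'⟩
      · exact ⟨h.1, h'⟩
      · exact absurd h' (hZX e h.1)
    · rintro ⟨h, h'⟩
      exact ⟨Or.inl ⟨h, fun h'' => hZX e h'' h'⟩, h'⟩
  have hAc : A ∩ dl s t X = {g1, g2} := by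
    ext e
    simp only [Finset.mem_inter, Finset.mem_insert, Finset.mem_singleton]
    rw [hAm]
    constructor
    · rintro ⟨h | h, h'⟩
      · exact absurd h' (hQX e h)
      · exact h
    · intro h
      refine ⟨Or.inr h, ?_⟩
      rcases h with h | h
      · exact h ▸ hg1X
      · exact h ▸ hg2X
  have hAc2 : (A ∩ dl s t X).card = 2 := by
    rw [hAc]; exact Finset.card_pair (fun h => hg21 h.symm)
  have h1 : 0 ≤ wt (peel l (dl s t X) f) (symmDiff A Z) := by
    refine ih 2 (by omega) _ (by rw [hcut, hAc2]) ?_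
    rw [bdy_sd, hAb, hZb, dbl]
  have h3 : (symmDiff S A ∩ dl s t X).card + 2 = n := by
    rw [← hn, ← hAc2]
    have h4 : S ∩ dl s t X = (symmDiff S A ∩ dl s t X) ∪ (A ∩ dl s t X) := by
      ext e
      simp only [Finset.mem_inter, Finset.mem_union, Finset.mem_symmDiff]
      constructor
      · rintro ⟨h, h'⟩
        by_cases hA' : e ∈ A
        · exact Or.inr ⟨hA', h'⟩
        · exact Or.inl ⟨Or.inl ⟨h, hA'⟩, h'⟩
      · rintro (⟨h | h, h'⟩ | ⟨h, h'⟩)
        · exact ⟨h.1, h'⟩
        · exact ⟨hAS h.1, h'⟩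
        · exact ⟨hAS h, h'⟩
    rw [h4, Finset.card_union_of_disjoint]
    rw [Finset.disjoint_left]
    intro e he he'
    rw [Finset.mem_inter] at he he'
    have := he.1
    rw [Finset.mem_symmDiff] at this
    rcases this with h | h
    · exact h.2 he'.1
    · exact h.2 (hAS he'.1)
  have h2 : 0 ≤ wt (peel l (dl s t X) f) (symmDiff (symmDiff S A) Z) := by
    refine ih (n - 2) (by omega) _ (by rw [hcut]; omega) ?_
    rw [bdy_sd, bdy_sd, hS, hAb, hZb]
    linear_combination dbl (pt u1) + dbl (pt u2)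
  rw [wt_null _ _ _ hZp] at h1 h2
  rw [wt_sub _ hAS] at h2
  omega

lemma peel_cons {s t : E → V} {l : E → ℤ} {X : Finset V} {J : Finset E} {f : E} {a u v : V}
    (d : Data s t l X J f a u v) : Cons s t (peel l (dl s t X) f) := by
  constructor
  · intro S hS
    exact peel_nonneg d _ S rfl hS
  · intro S hS
    rw [wt_peel]
    have h1 := d.cons.even _ hS
    have h2 := card_even_of_bdy hS X
    have h3 : Even ((S ∩ dl s t X).card : ℤ) := by exact_mod_cast h2
    refine Even.add (h1.sub h3) ?_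
    split_ifs
    · exact even_two
    · exact Even.zero

/-- negative part -/
def np (l : E → ℤ) : ℕ := ∑ e, (-(l e)).toNat

lemma np_peel {s t : E → V} {l : E → ℤ} {X : Finset V} {J : Finset E} {f : E} {a u v : V}
    (d : Data s t l X J f a u v) : np (peel l (dl s t X) f) < np l := by
  unfold np
  refine Finset.sum_lt_sum (fun e _ => ?_) ⟨f, Finset.mem_univ f, ?_⟩
  · unfold peel
    by_cases hef : e = f
    · rw [hef, if_pos d.hfX, if_pos rfl]
      omega
    · rw [if_neg hef]
      by_cases he : e ∈ dl s t X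
      · rw [if_pos he]
        have := d.hpos e he hef
        omega
      · rw [if_neg he]
        omega
  · unfold peel
    rw [if_pos d.hfX, if_pos rfl]
    have := d.hfneg
    omega

/-- **Dual form of Seymour's theorem on sums of circuits.** -/
theorem dual_form (s t : E → V) (w : E → ℝ) (hw : ∀ e, 0 ≤ w e)
    (hcut : ∀ X : Finset V, ∀ f ∈ dl s t X, 2 * w f ≤ ∑ e ∈ dl s t X, w e) :
    ∀ (n : ℕ) (l : E → ℤ), np l = n → Cons s t l → 0 ≤ ∑ e, (l e : ℝ) * w e := by
  intro n
  induction n using Nat.strong_induction_on with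
  | _ n ih =>
  intro l hn hc
  by_cases h0 : ∀ e, 0 ≤ l e
  · exact Finset.sum_nonneg (fun e _ => mul_nonneg (by exact_mod_cast h0 e) (hw e))
  push Not at h0
  obtain ⟨e0, he0⟩ := h0
  obtain ⟨X, J, f, a, u, v, d⟩ := exists_data s t l hc e0 he0
  have h1 := ih _ (by rw [← hn]; exact np_peel d) (peel l (dl s t X) f) rfl (peel_cons d)
  have h2 := hcut X f d.hfX
  have h3 : ∑ e, ((peel l (dl s t X) f e : ℤ) : ℝ) * w e =
      ∑ e, (l e : ℝ) * w e - ∑ e ∈ dl s t X, w e + 2 * w f := by
    have h4 : ∀ e, ((peel l (dl s t X) f e : ℤ) : ℝ) * w e =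
        (l e : ℝ) * w e - (if e ∈ dl s t X then w e else 0) + (if e = f then 2 * w e else 0) := by
      intro e
      unfold peel
      push_cast
      split_ifs <;> ring
    rw [Finset.sum_congr rfl (fun e _ => h4 e), Finset.sum_add_distrib, Finset.sum_sub_distrib,
      Finset.sum_ite_mem, Finset.univ_inter, Finset.sum_ite_eq' Finset.univ f,
      if_pos (Finset.mem_univ f)]
  linarith

end Pool.Agent.H98.Faith
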