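import Mathlib
import Pool.Agent.H98.Faith.Step2

set_option autoImplicit false

/-! Seymour's theorem on sums of circuits: a nonnegative real weighting `w` of the edges of a
multigraph is a nonnegative combination of even subgraphs as soon as `2 w(f) ≤ w(C)` for all edge
cuts `C` and all `f ∈ C`. -/

namespace Pool.Agent.H98.Faith

open Pool.Agent.H46.Faith

set_option linter.unusedSectionVars false

variable {V E : Type} [Fintype V] [DecidableEq V] [Fintype E] [DecidableEq E]

/-- Rational conservative weights. -/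
lemma dual_rat (s t : E → V) (w : E → ℝ) (hw : ∀ e, 0 ≤ w e)
    (hcut : ∀ X : Finset V, ∀ f ∈ dl s t X, 2 * w f ≤ ∑ e ∈ dl s t X, w e)
    (l : E → ℚ) (hl : ∀ S, bdy s t S = 0 → 0 ≤ ∑ e ∈ S, l e) :
    0 ≤ ∑ e, (l e : ℝ) * w e := by
  classical
  set N : ℕ := ∏ e, (l e).den with hN
  have hNpos : 0 < N := Finset.prod_pos (fun e _ => (l e).den_pos)
  have hint : ∀ e, ∃ z : ℤ, (z : ℚ) = N * l e := by
    intro e
    obtain ⟨m, hm⟩ : (l e).den ∣ N := Finset.dvd_prod_of_mem _ (Finset.mem_univ e)
    refine ⟨m * (l e).num, ?_⟩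
    rw [hm]
    push_cast
    have h1 := Rat.mul_den_eq_num (l e)
    rw [← h1]
    ring
  choose z hz using hint
  have hc : Cons s t (fun e => 2 * z e) := by
    constructor
    · intro S hS
      unfold wt
      rw [← Finset.mul_sum]
      have h1 : (0 : ℚ) ≤ ((∑ e ∈ S, z e : ℤ) : ℚ) := by
        push_cast
        rw [Finset.sum_congr rfl (fun e _ => hz e), ← Finset.mul_sum]
        exact mul_nonneg (by positivity) (hl S hS)
      have h2 : (0 : ℤ) ≤ ∑ e ∈ S, z e := by exact_mod_cast h1
      omega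
    · intro S _
      unfold wt
      rw [← Finset.mul_sum]
      exact even_two_mul _
  have h1 := dual_form s t w hw hcut _ (fun e => 2 * z e) rfl hc
  have h2 : ∑ e, ((2 * z e : ℤ) : ℝ) * w e = 2 * N * ∑ e, (l e : ℝ) * w e := by
    rw [Finset.mul_sum]
    refine Finset.sum_congr rfl (fun e _ => ?_)
    have h3 : ((z e : ℚ) : ℝ) = ((N * l e : ℚ) : ℝ) := by rw [hz e]
    push_cast at h3 ⊢
    rw [h3]
    ring
  rw [h2] at h1
  have h3 : (0 : ℝ) < 2 * N := by positivity
  exact nonneg_of_mul_nonneg_right h1 h3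

/-- **Seymour's theorem on sums of circuits (even subgraph form).** -/
theorem sums_of_circuits (s t : E → V) (w : E → ℝ) (hw : ∀ e, 0 ≤ w e)
    (hcut : ∀ X : Finset V, ∀ f ∈ dl s t X, 2 * w f ≤ ∑ e ∈ dl s t X, w e) :
    ∃ μ : Finset E → ℝ, (∀ S, 0 ≤ μ S) ∧ (∀ S, μ S ≠ 0 → bdy s t S = 0) ∧
      ∀ e, ∑ S with e ∈ S, μ S = w e := by
  classical
  by_cases hw0 : ∀ e, w e = 0
  · exact ⟨fun _ => 0, fun _ => le_rfl, fun S h => absurd rfl h, fun e => by simp [hw0 e]⟩
  push Not at hw0
  obtain ⟨e1, he1⟩ := hw0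
  have he1pos : 0 < w e1 := lt_of_le_of_ne (hw e1) (Ne.symm he1)
  let Mt := {S : Finset E // bdy s t S = 0 ∧ S.Nonempty}
  let L : (Mt → ℝ) → (E → ℝ) := fun l e => ∑ S : Mt, if e ∈ (S : Finset E) then l S else 0
  have hL : IsLinearMap ℝ L := by
    refine ⟨fun x y => ?_, fun r x => ?_⟩
    · funext e
      simp only [L, Pi.add_apply, ← Finset.sum_add_distrib]
      refine Finset.sum_congr rfl fun M _ => ?_
      split_ifs <;> simp
    · funext e
      simp only [L, Pi.smul_apply, smul_eq_mul, Finset.mul_sum]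
      refine Finset.sum_congr rfl fun M _ => ?_
      split_ifs <;> simp
  have hLc : Continuous L := by
    refine continuous_pi fun e => continuous_finsetSum _ fun M _ => ?_
    split_ifs
    · exact continuous_apply M
    · exact continuous_const
  set K : Set (E → ℝ) := L '' stdSimplex ℝ Mt with hK
  have hKconv : Convex ℝ K := (convex_stdSimplex ℝ Mt).is_linear_image hL
  have hKcomp : IsCompact K := (isCompact_stdSimplex ℝ Mt).image hLc
  set U : Set (E → ℝ) := (fun c : ℝ => c • w) '' Set.Ici 0 with hU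
  have hUconv : Convex ℝ U := by
    rintro _ ⟨a, ha, rfl⟩ _ ⟨b, hb, rfl⟩ p q hp hq _
    refine ⟨p * a + q * b, ?_, ?_⟩
    · exact add_nonneg (mul_nonneg hp ha) (mul_nonneg hq hb)
    · simp only [add_smul, mul_smul]
  have hUcl : IsClosed U := by
    have : U = ⋂ e, ({x : E → ℝ | x e * w e1 = x e1 * w e} ∩ {x : E → ℝ | 0 ≤ x e1}) := by
      ext x
      simp only [hU, Set.mem_image, Set.mem_Ici, Set.mem_iInter, Set.mem_inter_iff,
        Set.mem_ofPred_eq]
      constructor
      · rintro ⟨c, hc, rfl⟩ e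
        simp only [Pi.smul_apply, smul_eq_mul]
        exact ⟨by ring, mul_nonneg hc (hw e1)⟩
      · intro h
        refine ⟨x e1 / w e1, div_nonneg (h e1).2 (hw e1), ?_⟩
        funext e
        simp only [Pi.smul_apply, smul_eq_mul]
        have := (h e).1
        field_simp
        linarith
    rw [this]
    refine isClosed_iInter fun e => IsClosed.inter ?_ ?_
    · exact isClosed_eq ((continuous_apply e).mul continuous_const)
        ((continuous_apply e1).mul continuous_const)
    · exact isClosed_le continuous_const (continuous_apply e1)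
  have hint : (K ∩ U).Nonempty := by
    by_contra hemp
    rw [Set.not_nonempty_iff_eq_empty] at hemp
    obtain ⟨f, p, q, hf1, hpq, hf2⟩ := geometric_hahn_banach_compact_closed hKconv hKcomp
      hUconv hUcl (Set.disjoint_iff_inter_eq_empty.2 hemp)
    set l : E → ℝ := fun e => f (Pi.single e 1) with hldef
    have hfx : ∀ x : E → ℝ, f x = ∑ e, x e * l e := by
      intro x
      have h0 : x = ∑ e, x e • (Pi.single e (1 : ℝ) : E → ℝ) := by
        funext e'
        simp [Finset.sum_apply, Pi.single_apply]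
      conv_lhs => rw [h0]
      rw [map_sum]
      refine Finset.sum_congr rfl fun e _ => ?_
      rw [map_smul, smul_eq_mul]
    have hq0 : q < 0 := by
      have := hf2 0 ⟨0, Set.mem_Ici.2 le_rfl, by simp⟩
      rwa [map_zero] at this
    have hwl : 0 ≤ ∑ e, w e * l e := by
      rw [← hfx]
      by_contra hcon
      push Not at hcon
      have h1 := hf2 ((q / f w) • w) ⟨q / f w, div_nonneg_of_nonpos hq0.le hcon.le, rfl⟩
      rw [map_smul, smul_eq_mul, div_mul_cancel₀ _ hcon.ne] at h1
      exact lt_irrefl _ h1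
    have hSl : ∀ S : Mt, ∑ e ∈ (S : Finset E), l e < p := by
      intro S
      have h1 := hf1 (L (Pi.single S 1)) ⟨Pi.single S 1, single_mem_stdSimplex ℝ S, rfl⟩
      rw [hfx] at h1
      have h2 : ∀ e, L (Pi.single S 1) e = if e ∈ (S : Finset E) then 1 else 0 := by
        intro e
        change (∑ S' : Mt, if e ∈ (S' : Finset E) then (Pi.single S (1 : ℝ) : Mt → ℝ) S' else 0) = _
        rw [Finset.sum_eq_single S]
        · simp
        · intro S' _ hne
          rw [Pi.single_eq_of_ne hne]; simp
        · intro h; exact absurd (Finset.mem_univ _) h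
      simp only [h2, ite_mul, one_mul, zero_mul, Finset.sum_ite_mem, Finset.univ_inter] at h1
      exact h1
    -- rational weights slightly below -l
    obtain ⟨δ, hδ, hδ'⟩ : ∃ δ : ℝ, 0 < δ ∧ δ * Fintype.card E ≤ -p := by
      refine ⟨-p / (Fintype.card E + 1), ?_, ?_⟩
      · have : 0 < -p := by linarith
        positivity
      · have h3 : 0 < -p := by linarith
        rw [div_mul_eq_mul_div, div_le_iff₀ (by positivity)]
        nlinarith
    have hr : ∀ e, ∃ r : ℚ, -l e - δ < r ∧ (r : ℝ) < -l e := by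
      intro e
      exact exists_rat_btwn (by linarith)
    choose r hr1 hr2 using hr
    have h4 : 0 ≤ ∑ e, (r e : ℝ) * w e := by
      refine dual_rat s t w hw hcut r (fun S hS => ?_)
      rcases S.eq_empty_or_nonempty with h | h
      · rw [h, Finset.sum_empty]
      · have h5 := hSl ⟨S, hS, h⟩
        simp only at h5
        have h6 : ∑ e ∈ S, (-l e - δ) ≤ ∑ e ∈ S, (r e : ℝ) :=
          Finset.sum_le_sum (fun e _ => (hr1 e).le)
        rw [Finset.sum_sub_distrib, Finset.sum_neg_distrib, Finset.sum_const, nsmul_eq_mul] at h6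
        have h7 : (S.card : ℝ) * δ ≤ δ * Fintype.card E := by
          rw [mul_comm]
          exact mul_le_mul_of_nonneg_left (by exact_mod_cast Finset.card_le_univ S) hδ.le
        have h8 : (0 : ℝ) ≤ ∑ e ∈ S, (r e : ℝ) := by linarith
        exact_mod_cast h8
    have h5 : ∑ e, (r e : ℝ) * w e < ∑ e, (-l e) * w e := by
      refine Finset.sum_lt_sum (fun e _ => mul_le_mul_of_nonneg_right (hr2 e).le (hw e))
        ⟨e1, Finset.mem_univ _, mul_lt_mul_of_pos_right (hr2 e1) he1pos⟩
    have h6 : ∑ e, (-l e) * w e = - ∑ e, w e * l e := by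
      rw [← Finset.sum_neg_distrib]
      exact Finset.sum_congr rfl (fun e _ => by ring)
    linarith
  obtain ⟨x, ⟨y, hy, hyx⟩, ⟨c, hc, hcx⟩⟩ := hint
  have hc' : (0 : ℝ) ≤ c := hc
  have hxe : ∀ e, x e = c * w e := fun e => by rw [← hcx]; rfl
  have hy0 := hy.1
  have hcpos : 0 < c := by
    rcases hc'.lt_or_eq with h | h
    · exact h
    · exfalso
      have h1 : ∑ e, x e = 0 := Finset.sum_eq_zero (fun e _ => by rw [hxe, ← h, zero_mul])
      have h2 : (1 : ℝ) ≤ ∑ e, x e := by
        rw [← hyx]
        change 1 ≤ ∑ e, ∑ S : Mt, if e ∈ (S : Finset E) then y S else 0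
        rw [Finset.sum_comm, ← hy.2]
        refine Finset.sum_le_sum (fun S _ => ?_)
        rw [← Finset.sum_filter, Finset.sum_const, nsmul_eq_mul]
        have h3 : 1 ≤ (Finset.univ.filter (fun e => e ∈ (S : Finset E))).card := by
          rw [Finset.one_le_card]
          obtain ⟨e, he⟩ := S.2.2
          exact ⟨e, by simp [he]⟩
        have h4 : (1 : ℝ) ≤ ((Finset.univ.filter (fun e => e ∈ (S : Finset E))).card : ℝ) := by
          exact_mod_cast h3
        nlinarith [hy0 S]
      linarith
  refine ⟨fun S => if h : bdy s t S = 0 ∧ S.Nonempty then y ⟨S, h⟩ / c else 0, ?_, ?_, ?_⟩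
  · intro S
    simp only
    split_ifs with h
    · exact div_nonneg (hy0 _) hc'
    · exact le_rfl
  · intro S hS
    simp only at hS
    by_contra hcon
    rw [dif_neg (fun h => hcon h.1)] at hS
    exact hS rfl
  · intro e
    have h1 : (∑ S with e ∈ S, if h : bdy s t S = 0 ∧ S.Nonempty then y ⟨S, h⟩ / c else 0) =
        ∑ S : Mt, if e ∈ (S : Finset E) then y S / c else 0 := by
      rw [Finset.sum_filter]
      have h2 : ∀ S : Finset E, (if e ∈ S then
          (if h : bdy s t S = 0 ∧ S.Nonempty then y ⟨S, h⟩ / c else 0) else 0) =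
          (if h : bdy s t S = 0 ∧ S.Nonempty then
            (if e ∈ S then y ⟨S, h⟩ / c else 0) else 0) := by
        intro S
        split_ifs <;> rfl
      rw [Finset.sum_congr rfl (fun S _ => h2 S)]
      rw [Finset.sum_dite]
      simp only [Finset.sum_const_zero, add_zero]
      refine Finset.sum_bij' (fun S _ => ⟨S.1, (Finset.mem_filter.1 S.2).2⟩)
        (fun S _ => ⟨S.1, Finset.mem_filter.2 ⟨Finset.mem_univ _, S.2⟩⟩) ?_ ?_ ?_ ?_ ?_ <;> simp
    rw [h1]
    have h3 : (∑ S : Mt, if e ∈ (S : Finset E) then y S / c else 0) = (L y) e / c := by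
      change _ = (∑ S : Mt, if e ∈ (S : Finset E) then y S else 0) / c
      rw [Finset.sum_div]
      refine Finset.sum_congr rfl (fun S _ => ?_)
      split_ifs
      · rfl
      · rw [zero_div]
    rw [h3, hyx, hxe]
    field_simp

end Pool.Agent.H98.Faith
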